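import Mathlib

set_option autoImplicit false

/-!
Auxiliary lemmas for MP_1d29c3_nt (translation property for integers composed of primes in P).
-/

namespace Pool.Agent.Lib.MP_1d29c3_nt

open Filter

/-- `π(n) = o(n)` in the form needed below. -/
lemma pi_small (C : ℕ) : ∀ᶠ n : ℕ in atTop, C * Nat.primeCounting n < n := by
  have h1 := (tendsto_natCast_atTop_atTop (R := ℝ)).eventually
    (Chebyshev.eventually_primeCounting_le (ε := 1) one_pos)
  have h2 : ∀ᶠ n : ℕ in atTop, (C : ℝ) * (Real.log 4 + 1) < Real.log n :=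
    (Real.tendsto_log_atTop.comp (tendsto_natCast_atTop_atTop (R := ℝ))).eventually_gt_atTop _
  filter_upwards [h1, h2, eventually_ge_atTop 2] with n hn1 hn2 hn3
  rw [Nat.floor_natCast] at hn1
  have hnpos : (0 : ℝ) < n := by positivity
  have hlog : 0 < Real.log n := Real.log_pos (by exact_mod_cast (by omega : 1 < n))
  have : (C : ℝ) * Nat.primeCounting n < n := by
    calc (C : ℝ) * Nat.primeCounting n ≤ C * ((Real.log 4 + 1) * n / Real.log n) := by gcongr
      _ = (C * (Real.log 4 + 1)) * n / Real.log n := by ring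
      _ < n := by
        rw [div_lt_iff₀ hlog, mul_comm (n : ℝ)]
        exact mul_lt_mul_of_pos_right hn2 hnpos
  exact_mod_cast this

/-- A positive integer `N` has at most `log N / log M` distinct prime factors exceeding `M`. -/
lemma pow_card_big_le (N M : ℕ) (hN : N ≠ 0) :
    M ^ (N.primeFactors.filter (M < ·)).card ≤ N := by
  calc M ^ (N.primeFactors.filter (M < ·)).card
      ≤ ∏ p ∈ N.primeFactors.filter (M < ·), p :=
        Finset.pow_card_le_prod _ _ _ (fun p hp => (Finset.mem_filter.1 hp).2.le)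
    _ ≤ ∏ p ∈ N.primeFactors, p := by
        apply Finset.prod_le_prod_of_subset_of_one_le' (Finset.filter_subset _ _)
        intro p hp _
        exact (Nat.prime_of_mem_primeFactors hp).one_le
    _ ≤ N := Nat.le_of_dvd (Nat.pos_of_ne_zero hN) (Nat.prod_primeFactors_dvd N)

/-- Primes exceeding `M` that divide one of `t + 1, ..., t + k`. -/
def bad (M t k : ℕ) : Finset ℕ :=
  (Finset.Icc 1 k).biUnion (fun a => (t + a).primeFactors.filter (M < ·))

lemma mem_bad {M t k p : ℕ} :
    p ∈ bad M t k ↔ ∃ a, 1 ≤ a ∧ a ≤ k ∧ p.Prime ∧ p ∣ t + a ∧ M < p := by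
  unfold bad
  simp only [Finset.mem_biUnion, Finset.mem_Icc, Finset.mem_filter, Nat.mem_primeFactors]
  constructor
  · rintro ⟨a, ⟨h1, h2⟩, ⟨h3, h4, _⟩, h5⟩
    exact ⟨a, h1, h2, h3, h4, h5⟩
  · rintro ⟨a, h1, h2, h3, h4, h5⟩
    exact ⟨a, ⟨h1, h2⟩, ⟨h3, h4, by omega⟩, h5⟩

/-- The sieve step: there is a multiplier `s ≤ m` such that, with `t = k! * m# * s`, no
`t + a` (`1 ≤ a ≤ k`) is divisible by a prime in `(m, M]`. -/
lemma exists_multiplier (k m M : ℕ) (hkm : k < m) (hM : k * Nat.primeCounting M < m) :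
    ∃ s, 1 ≤ s ∧ s ≤ m ∧ ∀ p, p.Prime → m < p → p ≤ M → ∀ a, 1 ≤ a → a ≤ k →
      ¬ p ∣ (k.factorial * primorial m * s + a) := by
  by_contra hcon
  push Not at hcon
  choose! f hf1 hf2 hf3 g hg1 hg2 hg3 using hcon
  have hcard : ((Nat.primesLE M) ×ˢ (Finset.Icc 1 k)).card < (Finset.Icc 1 m).card := by
    rw [Finset.card_product, Nat.primesLE_card_eq_primeCounting, Nat.card_Icc, Nat.card_Icc]
    have : Nat.primeCounting M * k < m := by rw [mul_comm]; exact hM
    simpa using this
  obtain ⟨x, hx, y, hy, hxy, hfxy⟩ := Finset.exists_ne_map_eq_of_card_lt_of_maps_to hcard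
    (f := fun s => (f s, g s)) (by
      intro s hs
      have hs' := Finset.mem_Icc.1 (Finset.mem_coe.1 hs)
      simp only [Finset.coe_product, Set.mem_prod, Finset.mem_coe, Nat.mem_primesLE,
        Finset.mem_Icc]
      exact ⟨⟨hf3 s hs'.1 hs'.2, hf1 s hs'.1 hs'.2⟩, hg1 s hs'.1 hs'.2, hg2 s hs'.1 hs'.2⟩)
  have hx' := Finset.mem_Icc.1 hx
  have hy' := Finset.mem_Icc.1 hy
  simp only [Prod.mk.injEq] at hfxy
  obtain ⟨hfe, hge⟩ := hfxy
  have hp := hf1 x hx'.1 hx'.2
  have hpm := hf2 x hx'.1 hx'.2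
  have d1 := hg3 x hx'.1 hx'.2
  have d2 := hg3 y hy'.1 hy'.2
  rw [← hfe, ← hge] at d2
  set p := f x with hpdef
  have hW : ¬ p ∣ k.factorial * primorial m := by
    intro hd
    rcases (Nat.Prime.dvd_mul hp).1 hd with h | h
    · have := (Nat.Prime.dvd_factorial hp).1 h
      omega
    · have := (Nat.Prime.dvd_primorial_iff hp).1 h
      omega
  have key : ∀ u v : ℕ, u ≤ m → v ≤ u → p ∣ (k.factorial * primorial m * u + g x) →
      p ∣ (k.factorial * primorial m * v + g x) → u = v := by
    intro u v hu hvu h1 h2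
    have h3 : p ∣ (k.factorial * primorial m * u + g x) - (k.factorial * primorial m * v + g x) :=
      Nat.dvd_sub h1 h2
    have h4 : (k.factorial * primorial m * u + g x) - (k.factorial * primorial m * v + g x)
        = (k.factorial * primorial m) * (u - v) := by
      rw [Nat.add_sub_add_right, Nat.mul_sub]
    rw [h4] at h3
    rcases (Nat.Prime.dvd_mul hp).1 h3 with h | h
    · exact absurd h hW
    · by_contra hne
      have := Nat.le_of_dvd (by omega) h
      omega
  rcases le_total x y with h | h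
  · exact hxy (key y x hy'.2 h d2 d1).symm
  · exact hxy (key x y hx'.2 h d1 d2)

end Pool.Agent.Lib.MP_1d29c3_nt
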