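import Mathlib
import Pool.Agent.Lib.MP_1d29c3_nt.Basic

set_option autoImplicit false

namespace Pool.Agent.Lib.MP_1d29c3_nt

open Filter

/-- Growth estimate: `k! * 4^m * m + k ≤ 16^m` for large `m`. -/
lemma growth (k : ℕ) : ∀ᶠ m : ℕ in atTop, k.factorial * 4 ^ m * m + k ≤ 16 ^ m := by
  have h : ∀ᶠ m : ℕ in atTop, k.factorial + k ≤ 2 ^ m := by
    filter_upwards [eventually_ge_atTop (k.factorial + k)] with m hm
    exact hm.trans Nat.lt_two_pow_self.le
  filter_upwards [h, eventually_ge_atTop 1] with m hm hm1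
  have h2 : m ≤ 2 ^ m := Nat.lt_two_pow_self.le
  calc k.factorial * 4 ^ m * m + k ≤ k.factorial * 4 ^ m * m + k * (4 ^ m * m) := by
        have : 1 ≤ 4 ^ m * m := Nat.one_le_iff_ne_zero.2 (by positivity)
        nlinarith
    _ = (k.factorial + k) * 4 ^ m * m := by ring
    _ ≤ 2 ^ m * 4 ^ m * 2 ^ m := by gcongr
    _ = 16 ^ m := by
        rw [← Nat.mul_pow, ← Nat.mul_pow]

/-- The number of bad primes is small compared with `π(M)`. -/
lemma bad_card_le (k m M t : ℕ) (hm : 1 ≤ m) (hMdef : M = 64 * (k + 1) * m)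
    (ht : t + k ≤ 16 ^ m) : 8 * (bad M t k).card ≤ Nat.primeCounting M := by
  have hM64 : 64 ≤ M := by
    rw [hMdef]; nlinarith [Nat.zero_le (k * m)]
  have hlogM : 0 < Real.log M := Real.log_pos (by exact_mod_cast (by omega : 1 < M))
  have hlog2 : 0 < Real.log 2 := Real.log_pos (by norm_num)
  have h16 : Real.log 16 = 4 * Real.log 2 := by
    rw [show (16 : ℝ) = 2 ^ (4 : ℕ) by norm_num, Real.log_pow]; norm_num
  -- each single `t + a`
  have hone : ∀ a ∈ Finset.Icc 1 k,
      (((t + a).primeFactors.filter (M < ·)).card : ℝ) * Real.log M ≤ m * (4 * Real.log 2) := by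
    intro a ha
    have ha' := Finset.mem_Icc.1 ha
    have h1 := pow_card_big_le (t + a) M (by omega)
    have h2 : M ^ ((t + a).primeFactors.filter (M < ·)).card ≤ 16 ^ m := h1.trans (by omega)
    have h3 : ((M : ℝ)) ^ ((t + a).primeFactors.filter (M < ·)).card ≤ (16 : ℝ) ^ m := by
      exact_mod_cast h2
    have h4 := Real.log_le_log (by positivity) h3
    rw [Real.log_pow, Real.log_pow, h16] at h4
    exact h4
  have hsum : ((bad M t k).card : ℝ) * Real.log M ≤ k * (m * (4 * Real.log 2)) := by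
    have h1 : (bad M t k).card ≤ ∑ a ∈ Finset.Icc 1 k,
        ((t + a).primeFactors.filter (M < ·)).card := Finset.card_biUnion_le
    have h2 : ((bad M t k).card : ℝ) ≤ ∑ a ∈ Finset.Icc 1 k,
        (((t + a).primeFactors.filter (M < ·)).card : ℝ) := by exact_mod_cast h1
    calc ((bad M t k).card : ℝ) * Real.log M
        ≤ (∑ a ∈ Finset.Icc 1 k, (((t + a).primeFactors.filter (M < ·)).card : ℝ))
            * Real.log M := by gcongr
      _ = ∑ a ∈ Finset.Icc 1 k, (((t + a).primeFactors.filter (M < ·)).card : ℝ)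
            * Real.log M := by rw [Finset.sum_mul]
      _ ≤ ∑ _a ∈ Finset.Icc 1 k, (m * (4 * Real.log 2) : ℝ) := Finset.sum_le_sum hone
      _ = k * (m * (4 * Real.log 2)) := by
          rw [Finset.sum_const, Nat.card_Icc]; simp
  -- lower bound for `π(M)`
  have hpi := Chebyshev.pi_ge M
  rw [div_le_iff₀ hlogM] at hpi
  have hlogsmall : Real.log (M + 1) ≤ 32 * (k + 1) * m * Real.log 2 := by
    have h1 : M + 1 ≤ 2 ^ (32 * (k + 1) * m) := by
      have hx : 3 ≤ 32 * (k + 1) * m := by nlinarith [Nat.zero_le (k * m)]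
      have hgen : ∀ x : ℕ, 3 ≤ x → 2 * x + 1 ≤ 2 ^ x := by
        intro x hx
        induction x, hx using Nat.le_induction with
        | base => norm_num
        | succ n hn ih => rw [pow_succ]; omega
      have := hgen _ hx
      calc M + 1 = 2 * (32 * (k + 1) * m) + 1 := by rw [hMdef]; ring
        _ ≤ _ := this
    have h2 : ((M : ℝ) + 1) ≤ (2 : ℝ) ^ (32 * (k + 1) * m) := by exact_mod_cast h1
    have h3 := Real.log_le_log (by positivity) h2
    rw [Real.log_pow] at h3
    push_cast at h3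
    exact h3
  have hMreal : (M : ℝ) = 64 * (k + 1) * m := by rw [hMdef]; push_cast; ring
  have hfinal : (8 * (bad M t k).card : ℝ) * Real.log M
      ≤ (Nat.primeCounting M : ℝ) * Real.log M := by
    have e1 : (8 * (bad M t k).card : ℝ) * Real.log M ≤ 8 * (k * (m * (4 * Real.log 2))) := by
      linarith
    have e2 : (M : ℝ) * Real.log 2 - Real.log (M + 1) ≥ 32 * (k + 1) * m * Real.log 2 := by
      have : (M : ℝ) * Real.log 2 = 64 * (k + 1) * m * Real.log 2 := by rw [hMreal]
      linarith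
    have e3 : (8 : ℝ) * (k * (m * (4 * Real.log 2))) ≤ 32 * (k + 1) * m * Real.log 2 := by
      have : (0 : ℝ) ≤ 32 * m * Real.log 2 := by positivity
      nlinarith
    linarith
  have := le_of_mul_le_mul_right hfinal hlogM
  exact_mod_cast this

/-- The basic step of the construction. -/
lemma step (k L : ℕ) : ∃ M t : ℕ, L ≤ M ∧ 1 ≤ t ∧
    (∀ a, 1 ≤ a → a ≤ k → a ∣ t ∧ ∀ p, p.Prime → p ∣ t + a → p ≤ M → p ∣ a) ∧
    8 * (bad M t k).card ≤ Nat.primeCounting M := by
  have hK : 0 < 64 * (k + 1) := by positivity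
  have hmul : Tendsto (fun m : ℕ => 64 * (k + 1) * m) atTop atTop :=
    Tendsto.const_mul_atTop' hK tendsto_id
  have e1 := hmul.eventually (pi_small (64 * (k + 1) * k))
  obtain ⟨m, hm1, hm2, hm3, hm4⟩ :=
    (e1.and ((growth k).and ((eventually_ge_atTop (k + 1)).and (eventually_ge_atTop L)))).exists
  set M := 64 * (k + 1) * m with hMdef
  have hkpi : k * Nat.primeCounting M < m := by
    have h : (64 * (k + 1)) * (k * Nat.primeCounting M) < (64 * (k + 1)) * m := by
      calc (64 * (k + 1)) * (k * Nat.primeCounting M)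
          = 64 * (k + 1) * k * Nat.primeCounting M := by ring
        _ < M := hm1
        _ = (64 * (k + 1)) * m := hMdef
    exact Nat.lt_of_mul_lt_mul_left h
  obtain ⟨s, hs1, hs2, hs3⟩ := exists_multiplier k m M (by omega) hkpi
  refine ⟨M, k.factorial * primorial m * s, ?_, ?_, ?_, ?_⟩
  · calc L ≤ m := hm4
      _ ≤ M := by rw [hMdef]; nlinarith [Nat.zero_le (k * m)]
  · have h1 := Nat.factorial_pos k
    have h2 := primorial_pos m
    exact Nat.one_le_iff_ne_zero.2 (by positivity)
  · intro a ha1 ha2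
    have hak : a ∣ k.factorial := Nat.dvd_factorial (by omega) ha2
    refine ⟨(hak.mul_right _).mul_right _, ?_⟩
    intro p hp hpd hpM
    by_cases hpm : m < p
    · exact absurd hpd (hs3 p hp hpm hpM a ha1 ha2)
    · push Not at hpm
      obtain ⟨c, hc⟩ := hak
      have hrw : k.factorial * primorial m * s + a = a * (primorial m * (c * s) + 1) := by
        rw [hc]; ring
      rw [hrw] at hpd
      rcases (Nat.Prime.dvd_mul hp).1 hpd with h | h
      · exact h
      · exfalso
        have hd : p ∣ primorial m * (c * s) :=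
          ((Nat.Prime.dvd_primorial_iff hp).2 hpm).mul_right _
        have h1 : p ∣ 1 := (Nat.dvd_add_right hd).1 h
        exact hp.one_lt.ne' (Nat.dvd_one.1 h1)
  · apply bad_card_le k m M _ (by omega) hMdef
    calc k.factorial * primorial m * s + k ≤ k.factorial * 4 ^ m * m + k := by
          gcongr
          exact primorial_le_four_pow m
      _ ≤ 16 ^ m := hm2

/-- The step with a doubling condition on `π`. -/
lemma step' (k M0 : ℕ) : ∃ M t : ℕ, 2 ≤ M ∧ 2 * Nat.primeCounting M0 ≤ Nat.primeCounting M ∧ 1 ≤ t ∧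
    (∀ a, 1 ≤ a → a ≤ k → a ∣ t ∧ ∀ p, p.Prime → p ∣ t + a → p ≤ M → p ∣ a) ∧
    8 * (bad M t k).card ≤ Nat.primeCounting M := by
  obtain ⟨L, hL⟩ := (Nat.tendsto_primeCounting.eventually_ge_atTop
    (2 * Nat.primeCounting M0)).exists
  obtain ⟨M, t, h1, h2, h3, h4⟩ := step k (max L 2)
  exact ⟨M, t, (le_max_right _ _).trans h1,
    hL.trans (Nat.monotone_primeCounting ((le_max_left _ _).trans h1)), h2, h3, h4⟩

/-- The sequences `M_k`, `t_k`. -/
lemma exists_seq : ∃ M t : ℕ → ℕ, (∀ k, 2 ≤ M k) ∧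
    (∀ k, 2 * Nat.primeCounting (M k) ≤ Nat.primeCounting (M (k + 1))) ∧
    (∀ k, 1 ≤ t k) ∧
    (∀ k, ∀ a, 1 ≤ a → a ≤ k → a ∣ t k ∧
      ∀ p, p.Prime → p ∣ t k + a → p ≤ M k → p ∣ a) ∧
    (∀ k, 8 * (bad (M k) (t k) k).card ≤ Nat.primeCounting (M k)) := by
  choose F G h1 h2 h3 h4 h5 using step'
  let M : ℕ → ℕ := fun n => Nat.rec (F 0 0) (fun n prev => F (n + 1) prev) n
  have hM : ∀ n, M (n + 1) = F (n + 1) (M n) := fun n => rfl
  let t : ℕ → ℕ := fun n => match n with
    | 0 => G 0 0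
    | n + 1 => G (n + 1) (M n)
  refine ⟨M, t, ?_, ?_, ?_, ?_, ?_⟩
  · intro k
    cases k with
    | zero => exact h1 0 0
    | succ n => exact h1 (n + 1) (M n)
  · intro k
    exact h2 (k + 1) (M k)
  · intro k
    cases k with
    | zero => exact h3 0 0
    | succ n => exact h3 (n + 1) (M n)
  · intro k
    cases k with
    | zero => exact h4 0 0
    | succ n => exact h4 (n + 1) (M n)
  · intro k
    cases k with
    | zero => exact h5 0 0
    | succ n => exact h5 (n + 1) (M n)

end Pool.Agent.Lib.MP_1d29c3_nt
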