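import Mathlib
import Pool.Prelude.Def_F_cfb2a9ca
import Pool.Agent.Lib.MP_1d29c3_nt.Step

set_option autoImplicit false

namespace Pool.Agent.Lib.MP_1d29c3_nt

open Filter Asymptotics N41f07a28

/-- Chebyshev lower bound in the shape we need. -/
lemma pi_lower : ∀ᶠ x : ℕ in atTop,
    (x : ℝ) / Real.log x ≤ (2 / Real.log 2) * Nat.primeCounting x := by
  have hlog2 : 0 < Real.log 2 := Real.log_pos (by norm_num)
  have h1 : ∀ᶠ x : ℕ in atTop, Real.log ((x : ℝ) + 1) ≤ (Real.log 2 / 4) * ((x : ℝ) + 1) := by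
    have hlit := Real.isLittleO_log_id_atTop.bound (show (0 : ℝ) < Real.log 2 / 4 by positivity)
    have ht : Tendsto (fun x : ℕ => (x : ℝ) + 1) atTop atTop :=
      tendsto_atTop_add_const_right _ _ tendsto_natCast_atTop_atTop
    filter_upwards [ht.eventually hlit] with x hx
    simp only [id] at hx
    have hxp : (0 : ℝ) ≤ (x : ℝ) + 1 := by positivity
    rw [Real.norm_of_nonneg hxp] at hx
    exact (Real.le_norm_self _).trans hx
  filter_upwards [h1, eventually_ge_atTop 2] with x hx hx2
  have hlogx : 0 < Real.log x := Real.log_pos (by exact_mod_cast (by omega : 1 < x))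
  have hpi := Chebyshev.pi_ge x
  rw [div_le_iff₀ hlogx] at hpi
  rw [div_le_iff₀ hlogx]
  have hx1 : (1 : ℝ) ≤ x := by exact_mod_cast (by omega : 1 ≤ x)
  have key : (x : ℝ) * (Real.log 2 / 2) ≤ Nat.primeCounting x * Real.log x := by
    nlinarith
  calc (x : ℝ) = (2 / Real.log 2) * ((x : ℝ) * (Real.log 2 / 2)) := by field_simp
    _ ≤ (2 / Real.log 2) * (Nat.primeCounting x * Real.log x) := by gcongr
    _ = 2 / Real.log 2 * Nat.primeCounting x * Real.log x := by ring

lemma nth_prime_le {i x : ℕ} (h : i < Nat.primeCounting x) : Nat.nth Nat.Prime i ≤ x := by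
  have : Nat.nth Nat.Prime i < x + 1 := Nat.nth_lt_of_lt_count h
  omega

lemma nth_prime_inj : Function.Injective (Nat.nth Nat.Prime) :=
  Nat.nth_injective Nat.infinite_setOfPred_prime

lemma nth_even_inj : Function.Injective (fun i => Nat.nth Nat.Prime (2 * i)) := by
  intro a b h
  have := nth_prime_inj h
  omega

lemma nth_odd_inj : Function.Injective (fun i => Nat.nth Nat.Prime (2 * i + 1)) := by
  intro a b h
  have := nth_prime_inj h
  omega

/-- If `#A_x ≥ π(x)/8` eventually then `x / log x = O(#A_x)`. -/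
lemma isBigO_of_count (f : ℕ → ℕ) (h : ∀ᶠ x in atTop, Nat.primeCounting x ≤ 8 * f x) :
    (fun x : ℕ => (x : ℝ) / Real.log x) =O[atTop] (fun x => (f x : ℝ)) := by
  have hlog2 : 0 < Real.log 2 := Real.log_pos (by norm_num)
  apply IsBigO.of_bound (16 / Real.log 2)
  filter_upwards [pi_lower, h, eventually_ge_atTop 2] with x h1 h2 hx2
  have hlogx : 0 < Real.log x := Real.log_pos (by exact_mod_cast (by omega : 1 < x))
  have hnn : (0 : ℝ) ≤ (x : ℝ) / Real.log x := by positivity
  rw [Real.norm_of_nonneg hnn, Real.norm_of_nonneg (by positivity)]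
  have h2' : (Nat.primeCounting x : ℝ) ≤ 8 * f x := by exact_mod_cast h2
  calc (x : ℝ) / Real.log x ≤ (2 / Real.log 2) * Nat.primeCounting x := h1
    _ ≤ (2 / Real.log 2) * (8 * f x) := by gcongr
    _ = 16 / Real.log 2 * f x := by ring

theorem main :
    ∃ P : Set ℕ, P ⊆ {p : ℕ | p.Prime} ∧ (fun x : ℕ ↦ (x : ℝ) / Real.log x) =O[atTop] (fun x ↦ ((P ∩ Set.Iic x).ncard : ℝ)) ∧ (fun x : ℕ ↦ (x : ℝ) / Real.log x) =O[atTop] (fun x ↦ ((({p : ℕ | p.Prime} \ P) ∩ Set.Iic x).ncard : ℝ)) ∧ HasTranslationProperty (composedOf P) := by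
  obtain ⟨M, t, hM2, hMd, ht, hdiv, hbad⟩ := exists_seq
  -- monotonicity of `π (M k)` and of `M`
  have hpipos : ∀ k, 0 < Nat.primeCounting (M k) := by
    intro k
    have h1 : Nat.primeCounting 2 ≤ Nat.primeCounting (M k) := Nat.monotone_primeCounting (hM2 k)
    have h2 : 0 < Nat.primeCounting 2 := by
      rw [Nat.pos_iff_ne_zero, Ne, Nat.primeCounting_eq_zero_iff]; norm_num
    omega
  have hpistrict : StrictMono (fun k => Nat.primeCounting (M k)) := by
    apply strictMono_nat_of_lt_succ
    intro k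
    have := hMd k
    have := hpipos k
    omega
  have hMstrict : StrictMono M := by
    intro i j hij
    by_contra hcon
    push Not at hcon
    exact absurd (Nat.monotone_primeCounting hcon) (not_le.2 (hpistrict hij))
  -- the set of committed primes
  set C : Set ℕ := {p | ∃ k, p ∈ bad (M k) (t k) k} with hC
  set P : Set ℕ := {p | p.Prime ∧ ((∃ i, p = Nat.nth Nat.Prime (2 * i)) ∨ p ∈ C)} with hP
  refine ⟨P, fun p hp => hp.1, ?_, ?_, ?_⟩
  · -- the count for `P`
    apply isBigO_of_count (fun x => (P ∩ Set.Iic x).ncard)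
    filter_upwards with x
    have hsub : (((Finset.range ((Nat.primeCounting x + 1) / 2)).image
        (fun i => Nat.nth Nat.Prime (2 * i)) : Finset ℕ) : Set ℕ) ⊆ P ∩ Set.Iic x := by
      intro p hp
      simp only [Finset.coe_image, Set.mem_image, Finset.mem_coe, Finset.mem_range] at hp
      obtain ⟨i, hi, rfl⟩ := hp
      exact ⟨⟨Nat.prime_nth_prime _, Or.inl ⟨i, rfl⟩⟩, nth_prime_le (by omega)⟩
    have hfin : (P ∩ Set.Iic x).Finite := (Set.finite_Iic x).subset Set.inter_subset_right
    have h1 := Set.ncard_le_ncard hsub hfin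
    rw [Set.ncard_coe_finset, Finset.card_image_of_injective _ nth_even_inj,
      Finset.card_range] at h1
    show Nat.primeCounting x ≤ 8 * (P ∩ Set.Iic x).ncard
    omega
  · -- the count for `Q`
    apply isBigO_of_count (fun x => (({p : ℕ | p.Prime} \ P) ∩ Set.Iic x).ncard)
    have hev : ∀ᶠ x in atTop, 4 ≤ Nat.primeCounting x :=
      Nat.tendsto_primeCounting.eventually_ge_atTop 4
    filter_upwards [hev] with x hx4
    -- the relevant stages
    set T : Finset ℕ := (Finset.range (x + 1)).filter (fun k => M k < x) with hT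
    set D : Finset ℕ := T.biUnion (fun k => bad (M k) (t k) k) with hD
    have hsum : ∀ j, ∑ k ∈ Finset.range (j + 1), Nat.primeCounting (M k)
        ≤ 2 * Nat.primeCounting (M j) := by
      intro j
      induction j with
      | zero => simp; omega
      | succ n ih =>
        rw [Finset.sum_range_succ]
        have := hMd n
        omega
    have hTsum : ∑ k ∈ T, Nat.primeCounting (M k) ≤ 2 * Nat.primeCounting x := by
      rcases T.eq_empty_or_nonempty with h | h
      · rw [h]; simp
      · set j := T.max' h with hj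
        have hjT : j ∈ T := T.max'_mem h
        have hjx : M j < x := (Finset.mem_filter.1 hjT).2
        calc ∑ k ∈ T, Nat.primeCounting (M k)
            ≤ ∑ k ∈ Finset.range (j + 1), Nat.primeCounting (M k) := by
              apply Finset.sum_le_sum_of_subset
              intro k hk
              exact Finset.mem_range.2 (Nat.lt_succ_of_le (T.le_max' k hk))
          _ ≤ 2 * Nat.primeCounting (M j) := hsum j
          _ ≤ 2 * Nat.primeCounting x := by
              have := Nat.monotone_primeCounting hjx.le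
              omega
    have hDcard : 4 * D.card ≤ Nat.primeCounting x := by
      have h1 : D.card ≤ ∑ k ∈ T, (bad (M k) (t k) k).card := Finset.card_biUnion_le
      have h2 : ∑ k ∈ T, 8 * (bad (M k) (t k) k).card ≤ ∑ k ∈ T, Nat.primeCounting (M k) :=
        Finset.sum_le_sum (fun k _ => hbad k)
      rw [← Finset.mul_sum] at h2
      omega
    have hCD : ∀ p ∈ C, p ≤ x → p ∈ D := by
      rintro p ⟨k, hk⟩ hpx
      have hMp : M k < p := by
        obtain ⟨a, _, _, _, _, h⟩ := mem_bad.1 hk
        exact h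
      have hkM : k ≤ M k := hMstrict.id_le k
      rw [hD, Finset.mem_biUnion]
      refine ⟨k, ?_, hk⟩
      rw [hT, Finset.mem_filter, Finset.mem_range]
      omega
    set A : Finset ℕ := (Finset.range (Nat.primeCounting x / 2)).image
      (fun i => Nat.nth Nat.Prime (2 * i + 1)) with hA
    have hAcard : A.card = Nat.primeCounting x / 2 := by
      rw [hA, Finset.card_image_of_injective _ nth_odd_inj, Finset.card_range]
    have hsub : ((A \ D : Finset ℕ) : Set ℕ) ⊆ ({p : ℕ | p.Prime} \ P) ∩ Set.Iic x := by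
      intro p hp
      rw [Finset.coe_sdiff] at hp
      obtain ⟨hpA, hpD⟩ := hp
      simp only [hA, Finset.coe_image, Set.mem_image, Finset.mem_coe, Finset.mem_range] at hpA
      obtain ⟨i, hi, rfl⟩ := hpA
      have hle : Nat.nth Nat.Prime (2 * i + 1) ≤ x := nth_prime_le (by omega)
      refine ⟨⟨Nat.prime_nth_prime _, ?_⟩, hle⟩
      rintro ⟨_, ⟨j, hj⟩ | hc⟩
      · have := nth_prime_inj hj
        omega
      · exact hpD (Finset.mem_coe.2 (hCD _ hc hle))
    have hfin : (({p : ℕ | p.Prime} \ P) ∩ Set.Iic x).Finite :=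
      (Set.finite_Iic x).subset Set.inter_subset_right
    have h1 := Set.ncard_le_ncard hsub hfin
    rw [Set.ncard_coe_finset] at h1
    have h2 := Finset.le_card_sdiff D A
    show Nat.primeCounting x ≤ 8 * (({p : ℕ | p.Prime} \ P) ∩ Set.Iic x).ncard
    omega
  · -- the translation property
    intro k
    refine ⟨t k, ht k, ?_⟩
    intro a ha1 hak
    obtain ⟨hat, hsm⟩ := hdiv k a ha1 hak
    constructor
    · rintro ⟨_, haP⟩
      refine ⟨by omega, ?_⟩
      intro p hp hpd
      rw [add_comm] at hpd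
      by_cases hpM : p ≤ M k
      · exact haP p hp (hsm p hp hpd hpM)
      · push Not at hpM
        exact ⟨hp, Or.inr ⟨k, mem_bad.2 ⟨a, ha1, hak, hp, hpd, hpM⟩⟩⟩
    · rintro ⟨_, haP⟩
      refine ⟨ha1, ?_⟩
      intro p hp hpd
      exact haP p hp (dvd_add hpd (hpd.trans hat))

end Pool.Agent.Lib.MP_1d29c3_nt
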